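import Pool.Agent.K1H95.EO.Stm

/-!
# Project EO (helper95, MP_0f290c_co): pieces PIG and GOOD
-/

set_option autoImplicit false

open Cardinal

namespace Pool.Agent.K1H92.EO

open Pool.Agent.K1H95.EO

theorem mk_iUnion_small {κ : Cardinal.{0}} {α ι : Type} (S : ι → Set α) (h0 : ℵ₀ ≤ κ)
    (hι : #ι ≤ κ) (hS : ∀ i, #(S i) ≤ κ) : #(⋃ i, S i) ≤ κ := by
  calc #(⋃ i, S i) ≤ Cardinal.sum fun i => #(S i) := Cardinal.mk_iUnion_le_sum_mk
    _ ≤ Cardinal.sum fun _ : ι => κ := Cardinal.sum_le_sum _ _ hS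
    _ = #ι * κ := Cardinal.sum_const' ι κ
    _ ≤ κ * κ := mul_le_mul_left hι κ
    _ = κ := Cardinal.mul_eq_self h0

theorem t_PIG : S_PIG := by
  intro κ α β f F h0 hβ hF
  by_contra h
  push Not at h
  have h1 : F ⊆ ⋃ b : β, {v : α | v ∈ F ∧ f v = b} := by
    intro v hv
    rw [Set.mem_iUnion]
    exact ⟨f v, hv, rfl⟩
  have h2 := (Cardinal.mk_le_mk_of_subset h1).trans (mk_iUnion_small _ h0 hβ h)
  exact absurd hF (not_lt.2 h2)

theorem t_GOOD : S_GOOD := by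
  intro κ α β f F h0 hβ hF
  set S : ℕ × β → Set α := fun p =>
    {w | w ∈ F ∧ f p.1 w = p.2 ∧ #{w' : α | w' ∈ F ∧ f p.1 w' = p.2} ≤ κ} with hS
  have hι : #(ℕ × β) ≤ κ := by
    rw [Cardinal.mk_prod, Cardinal.lift_id, Cardinal.lift_id, Cardinal.mk_nat]
    calc ℵ₀ * #β ≤ κ * κ := mul_le_mul' h0 hβ
      _ = κ := Cardinal.mul_eq_self h0
  have hSc : ∀ p, #(S p) ≤ κ := by
    intro p
    by_cases hp : #{w' : α | w' ∈ F ∧ f p.1 w' = p.2} ≤ κ
    · refine le_trans (Cardinal.mk_le_mk_of_subset ?_) hp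
      intro w hw
      exact ⟨hw.1, hw.2.1⟩
    · have : S p = ∅ := by
        ext w
        simp only [hS, Set.mem_ofPred_eq, Set.mem_empty_iff_false, iff_false]
        rintro ⟨-, -, h⟩
        exact hp h
      rw [this, Cardinal.mk_eq_zero]
      exact bot_le
  have hB := mk_iUnion_small S h0 hι hSc
  have hbig : κ < #(F \ ⋃ p, S p : Set α) := by
    by_contra h
    push Not at h
    have h1 : F ⊆ (⋃ p, S p) ∪ (F \ ⋃ p, S p) := by
      intro v hv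
      by_cases h2 : v ∈ ⋃ p, S p
      · exact Or.inl h2
      · exact Or.inr ⟨hv, h2⟩
    have h2 : #F ≤ κ := by
      calc #F ≤ #((⋃ p, S p) ∪ (F \ ⋃ p, S p) : Set α) := Cardinal.mk_le_mk_of_subset h1
        _ ≤ #(⋃ p, S p) + #(F \ ⋃ p, S p : Set α) := Cardinal.mk_union_le _ _
        _ ≤ κ + κ := add_le_add hB h
        _ = κ := Cardinal.add_eq_self h0
    exact absurd hF (not_lt.2 h2)
  have hgood : ∀ v ∈ (F \ ⋃ p, S p : Set α), ∀ M, κ < #{w : α | w ∈ F ∧ f M w = f M v} := by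
    intro v hv M
    by_contra h
    push Not at h
    exact hv.2 (Set.mem_iUnion.2 ⟨(M, f M v), hv.1, rfl, h⟩)
  have h1 : 1 < #(F \ ⋃ p, S p : Set α) :=
    lt_of_le_of_lt (Cardinal.one_le_aleph0.trans h0) hbig
  rw [Cardinal.one_lt_iff_nontrivial] at h1
  obtain ⟨⟨v, hv⟩, ⟨v', hv'⟩, hne⟩ := h1
  refine ⟨v, hv.1, v', hv'.1, ?_, hgood v hv, hgood v' hv'⟩
  intro h
  exact hne (Subtype.ext h)

end Pool.Agent.K1H92.EO
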